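import Pool.Agent.H18.GW.Targets
import Pool.Agent.H27.HG.NOE

/-!
# MP_0b603e_al, row RP: a finite normal `p`-subgroup of a finitely generated nilpotent group
-/

set_option autoImplicit false

namespace Pool.Agent.H89.GWD

open Pool.Agent.H18.GW

/-- a maximal normal subgroup which meets `P` trivially -/
theorem exists_max {E : Type} [Group E] (P : Subgroup E) : ∃ K : Subgroup E, K.Normal ∧
    K ⊓ P = ⊥ ∧ ∀ L : Subgroup E, L.Normal → L ⊓ P = ⊥ → K ≤ L → L ≤ K := by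
  obtain ⟨K, -, hK⟩ := zorn_le_nonempty₀ {K : Subgroup E | K.Normal ∧ K ⊓ P = ⊥} (by
    intro c hc hch y hy
    have hne : c.Nonempty := ⟨y, hy⟩
    have hmem : ∀ x, x ∈ sSup c ↔ ∃ s ∈ c, x ∈ s := fun x =>
      Subgroup.mem_sSup_of_directedOn hne hch.directedOn
    refine ⟨sSup c, ⟨⟨fun n hn g => ?_⟩, ?_⟩, fun z hz => le_sSup hz⟩
    · obtain ⟨s, hs, hns⟩ := (hmem n).1 hn
      exact (hmem _).2 ⟨s, hs, (hc hs).1.conj_mem n hns g⟩
    · rw [eq_bot_iff]
      rintro x ⟨hx1, hx2⟩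
      obtain ⟨s, hs, hxs⟩ := (hmem x).1 hx1
      rw [← (hc hs).2]
      exact ⟨hxs, hx2⟩) ⊥ ⟨inferInstance, bot_inf_eq P⟩
  exact ⟨K, hK.1.1, hK.1.2, fun L h1 h2 h3 => hK.2 ⟨h1, h2⟩ h3⟩

theorem pf_RP (hNX : T_NX) : T_RP := by
  intro E _ hFG hnil p hp P hPn hPf hPp
  obtain ⟨K, hKn, hKP, hKmax⟩ := exists_max P
  -- normal subgroups of the quotient meet the image of `P`
  have hA : ∀ X : Subgroup (E ⧸ K), X.Normal → X ≠ ⊥ → ∃ y ∈ X, y ≠ 1 ∧ ∃ m : ℕ,
      y ^ (p ^ m) = 1 := by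
    intro X hX hX1
    by_contra hcon
    push Not at hcon
    refine hX1 ?_
    have h1 : X.comap (QuotientGroup.mk' K) ⊓ P = ⊥ := by
      rw [eq_bot_iff]
      rintro y ⟨hy1, hy2⟩
      rw [Subgroup.mem_bot]
      by_contra hy0
      have h2 : (y : E ⧸ K) ≠ 1 := by
        intro h
        have h3 : y ∈ K := (QuotientGroup.eq_one_iff y).1 h
        have h4 : y ∈ K ⊓ P := ⟨h3, hy2⟩
        rw [hKP, Subgroup.mem_bot] at h4
        exact hy0 h4
      obtain ⟨m, hm⟩ := hPp ⟨y, hy2⟩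
      have h5 : y ^ (p ^ m) = 1 := by
        have := congrArg Subtype.val hm
        simpa using this
      refine hcon (y : E ⧸ K) hy1 h2 m ?_
      rw [← QuotientGroup.mk_pow, h5, QuotientGroup.mk_one]
    have h2 : X.comap (QuotientGroup.mk' K) ≤ K := by
      refine hKmax _ inferInstance h1 ?_
      intro x hx
      rw [Subgroup.mem_comap, QuotientGroup.mk'_apply, (QuotientGroup.eq_one_iff x).2 hx]
      exact X.one_mem
    rw [eq_bot_iff]
    intro x hx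
    obtain ⟨y, rfl⟩ := QuotientGroup.mk_surjective x
    rw [Subgroup.mem_bot]
    exact (QuotientGroup.eq_one_iff y).2 (h2 hx)
  have hzn : ∀ z ∈ Subgroup.center (E ⧸ K), (Subgroup.zpowers z).Normal := by
    intro z hz
    refine ⟨fun n hn g => ?_⟩
    obtain ⟨a, rfl⟩ := Subgroup.mem_zpowers_iff.1 hn
    have h1 : z ^ a ∈ Subgroup.center (E ⧸ K) := (Subgroup.center _).zpow_mem hz a
    rw [Subgroup.mem_center_iff.1 h1 g, mul_inv_cancel_right]
    exact hn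
  -- central elements
  have hB : ∀ z ∈ Subgroup.center (E ⧸ K), ∃ j : ℕ, z ^ (p ^ j) = 1 := by
    intro z hz
    by_cases hz1 : z = 1
    · exact ⟨0, by rw [hz1, one_pow]⟩
    obtain ⟨y, hy, hy1, m, hm⟩ := hA _ (hzn z hz) (by
      rw [Ne, Subgroup.zpowers_eq_bot]
      exact hz1)
    obtain ⟨a, rfl⟩ := Subgroup.mem_zpowers_iff.1 hy
    have ha : a ≠ 0 := by
      rintro rfl
      exact hy1 (zpow_zero z)
    have hfin : IsOfFinOrder z := by
      rw [isOfFinOrder_iff_zpow_eq_one]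
      refine ⟨a * (p ^ m : ℕ), mul_ne_zero ha ?_, ?_⟩
      · exact_mod_cast (pow_pos hp.pos m).ne'
      · rw [zpow_mul, zpow_natCast]
        exact hm
    have hn0 : orderOf z ≠ 0 := hfin.orderOf_pos.ne'
    obtain ⟨j, n', hn', hn⟩ := Nat.exists_eq_pow_mul_and_not_dvd hn0 p hp.ne_one
    refine ⟨j, ?_⟩
    by_contra hcon
    have hyc : z ^ (p ^ j) ∈ Subgroup.center (E ⧸ K) := (Subgroup.center _).pow_mem hz _
    obtain ⟨u, hu, hu1, m', hm'⟩ := hA _ (hzn _ hyc) (by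
      rw [Ne, Subgroup.zpowers_eq_bot]
      exact hcon)
    obtain ⟨b, rfl⟩ := Subgroup.mem_zpowers_iff.1 hu
    have h1 : ((z ^ (p ^ j)) ^ b) ^ n' = 1 := by
      rw [← zpow_natCast, ← zpow_mul, mul_comm, zpow_mul, zpow_natCast, ← pow_mul, ← hn,
        pow_orderOf_eq_one, one_zpow]
    have h2 : orderOf ((z ^ (p ^ j)) ^ b) ∣ Nat.gcd (p ^ m') n' :=
      Nat.dvd_gcd (orderOf_dvd_of_pow_eq_one hm') (orderOf_dvd_of_pow_eq_one h1)
    have h3 : Nat.gcd (p ^ m') n' = 1 :=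
      Nat.Coprime.pow_left m' ((Nat.Prime.coprime_iff_not_dvd hp).2 hn')
    rw [h3, Nat.dvd_one, orderOf_eq_one_iff] at h2
    exact hu1 h2
  -- the exponent of the center
  have hC : ∃ k : ℕ, ∀ z ∈ Subgroup.center (E ⧸ K), z ^ (p ^ k) = 1 := by
    obtain ⟨S, hS⟩ := Pool.Agent.H27.HG.pf_NOE (E ⧸ K) (Subgroup.center (E ⧸ K))
    have hSc : ∀ s ∈ S, s ∈ Subgroup.center (E ⧸ K) := by
      intro s hs
      rw [← hS]
      exact Subgroup.subset_closure hs
    choose! j hj using hB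
    refine ⟨S.sup j, fun z hz => ?_⟩
    have h1 : z ∈ Subgroup.center (E ⧸ K) ∧ z ^ (p ^ S.sup j) = 1 := by
      rw [← hS] at hz
      induction hz using Subgroup.closure_induction with
      | mem s hs =>
        refine ⟨hSc s hs, ?_⟩
        obtain ⟨d, hd⟩ := pow_dvd_pow p (Finset.le_sup (f := j) hs)
        rw [hd, pow_mul, hj s (hSc s hs), one_pow]
      | one => exact ⟨Subgroup.one_mem _, one_pow _⟩
      | mul x y _ _ hx hy =>
        refine ⟨Subgroup.mul_mem _ hx.1 hy.1, ?_⟩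
        have hc : Commute x y := (Subgroup.mem_center_iff.1 hx.1 y).symm
        rw [hc.mul_pow, hx.2, hy.2, one_mul]
      | inv x _ hx =>
        refine ⟨Subgroup.inv_mem _ hx.1, ?_⟩
        rw [inv_pow, hx.2, inv_one]
    exact h1.2
  obtain ⟨k, hk⟩ := hC
  obtain ⟨n, hn⟩ := hNX (E ⧸ K) inferInstance (p ^ k) hk
  refine ⟨k * n, ?_⟩
  rw [eq_bot_iff, ← hKP]
  refine inf_le_inf_right P ?_
  unfold Pw
  rw [Subgroup.closure_le]
  rintro _ ⟨x, rfl⟩
  show x ^ (p ^ (k * n)) ∈ K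
  rw [← QuotientGroup.eq_one_iff, QuotientGroup.mk_pow, pow_mul]
  exact hn x

end Pool.Agent.H89.GWD
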